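import Pool.Agent.Helper69.UX.StB

set_option autoImplicit false

namespace Pool.Agent.Helper13.UX

open Finset Filter Pool.Agent.Helper82.CN Pool.Agent.Helper11.PV Pool.Agent.Helper69.VX
  Pool.Agent.Helper69.UX

lemma fib_inj {V L : Type} [Fintype V] [DecidableEq L] (f : V → L)
    (hf : Function.Surjective f) : Function.Injective (fib f) := by
  intro i j h
  obtain ⟨x, hx⟩ := hf i
  have h1 : x ∈ fib f i := by simp [fib, hx]
  rw [h] at h1
  have h2 : f x = j := by simpa [fib] using h1
  rw [← hx, h2]

theorem hTLT : StLAB → StMA0 → StTLT := by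
  intro hLAB hMA0 n A g hg hg0 hgA
  classical
  set S : ℝ := ∑ v ∈ range (A + 1), g v / (v.factorial : ℝ) with hS
  have hS0 : 0 ≤ S := Finset.sum_nonneg fun v _ => div_nonneg (hg v) (Nat.cast_nonneg _)
  have hpw : ∀ P : Finset (Finset (Fin n)), 0 ≤ pw g P := fun P =>
    Finset.prod_nonneg fun B _ => hg _
  -- the bound for the partitions with `l` classes
  have key : ∀ l : ℕ, ∑ P ∈ (Pt (Fin n)).filter (fun P => P.card = l), pw g P ≤
      (n.factorial : ℝ) * (S ^ l / (l.factorial : ℝ)) := by
    intro l
    have h1 := hLAB (Fin n) l (pw g) hpw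
    have h2 := hMA0 (Fin n) (Fin l) A (fun _ v => g v) (fun _ v => hg v)
      (fun _ v hv => hgA v hv)
    have h3 : ∑ f ∈ (univ : Finset (Fin n → Fin l)).filter (fun f => Function.Surjective f),
        pw g (univ.image (fib f)) ≤ ∑ f : Fin n → Fin l, ∏ i, g (fib f i).card := by
      have h4 : ∑ f ∈ (univ : Finset (Fin n → Fin l)).filter
          (fun f => Function.Surjective f), pw g (univ.image (fib f)) =
          ∑ f ∈ (univ : Finset (Fin n → Fin l)).filter (fun f => Function.Surjective f),
            ∏ i, g (fib f i).card := by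
        apply Finset.sum_congr rfl
        intro f hf
        rw [mem_filter] at hf
        unfold pw
        rw [Finset.prod_image]
        intro i _ j _ hij
        exact fib_inj f hf.2 hij
      rw [h4]
      apply Finset.sum_le_sum_of_subset_of_nonneg (Finset.filter_subset _ _)
      intro f _ _
      exact Finset.prod_nonneg fun i _ => hg _
    have h5 : ((Fintype.card (Fin n)).factorial : ℝ) *
        ∏ _i : Fin l, ∑ v ∈ range (A + 1), g v / (v.factorial : ℝ) =
        (n.factorial : ℝ) * S ^ l := by
      rw [Fintype.card_fin, Finset.prod_const, Finset.card_univ, Fintype.card_fin]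
    have hl : (0 : ℝ) < (l.factorial : ℝ) := by exact_mod_cast Nat.factorial_pos l
    have h6 : (l.factorial : ℝ) * ∑ P ∈ (Pt (Fin n)).filter (fun P => P.card = l), pw g P ≤
        (n.factorial : ℝ) * S ^ l := by
      refine h1.trans (h3.trans (h2.trans (le_of_eq ?_)))
      exact h5
    rw [← mul_div_assoc, le_div_iff₀ hl, mul_comm]
    exact h6
  set M : ℕ := Fintype.card (Finset (Fin n)) with hM
  have hmap : ∀ P ∈ Pt (Fin n), P.card ∈ range (M + 1) := by
    intro P _
    rw [mem_range]
    exact Nat.lt_succ_of_le (Finset.card_le_univ P)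
  rw [← Finset.sum_fiberwise_of_maps_to hmap]
  calc ∑ l ∈ range (M + 1), ∑ P ∈ (Pt (Fin n)).filter (fun P => P.card = l), pw g P
      ≤ ∑ l ∈ range (M + 1), (n.factorial : ℝ) * (S ^ l / (l.factorial : ℝ)) :=
        Finset.sum_le_sum fun l _ => key l
    _ = (n.factorial : ℝ) * ∑ l ∈ range (M + 1), S ^ l / (l.factorial : ℝ) := by
        rw [Finset.mul_sum]
    _ ≤ (n.factorial : ℝ) * Real.exp S :=
        mul_le_mul_of_nonneg_left (Real.sum_le_exp_of_nonneg hS0 _) (Nat.cast_nonneg _)

end Pool.Agent.Helper13.UX
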